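import Pool.Agent.RCM.Stmts

/-!
# Squad RCM, row UNC: the fundamental circuit never changes
-/

set_option autoImplicit false

namespace Pool.Agent.RCM.H17

open Set

universe u

variable {E : Type u} {K : Type}

/-- the intersection of the sets `J ⊆ I` which span `x` -/
def Fc (M : Matroid E) (I : Set E) (x : E) : Set E := ⋂₀ {J | J ⊆ I ∧ x ∈ M.closure J}

theorem Fc_sub {M : Matroid E} {I J : Set E} {x : E} (hJ : J ⊆ I) (hx : x ∈ M.closure J) :
    Fc M I x ⊆ J := sInter_subset_of_mem ⟨hJ, hx⟩

theorem Fc_mem {M : Matroid E} {I : Set E} {x : E} (hI : M.Indep I) (hx : x ∈ M.closure I) :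
    x ∈ M.closure (Fc M I x) := by
  unfold Fc
  have hne : ({J | J ⊆ I ∧ x ∈ M.closure J} : Set (Set E)).Nonempty := ⟨I, subset_rfl, hx⟩
  rw [hI.closure_sInter_eq_biInter_closure_of_forall_subset hne (fun J hJ => hJ.1)]
  exact mem_iInter₂.2 fun J hJ => hJ.2

theorem unc (hRCH : RchStmt.{u}) : UncStmt.{u} := by
  intro E K _ _ M N κ s t P X T x hC hM hS hx
  set F := Fc M (T ∪ P) x with hF
  have hxT : x ∈ M.closure (T ∪ P) := hx T Relation.ReflTransGen.refl
  have hxF : x ∈ M.closure F := Fc_mem hS.fr hxT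
  have hFT : F ⊆ T ∪ P := Fc_sub subset_rfl hxT
  have key : ∀ T', Rc M N κ P X T T' → F ⊆ T' ∪ P := by
    intro T' hT'
    induction hT' with
    | refl => exact hFT
    | @tail T' T'' h1 h2 ih =>
      have hS' : St M N κ P X t T' := (hRCH E K M N κ s t P X T T' hC hM hS h1).1
      have hx' := hx T' h1
      have hx'' := hx T'' (h1.tail h2)
      obtain ⟨a, b, hbT, -, -, haM, -, rfl⟩ := h2
      have hag : a ∈ M.E := (hC.indM (κ a)).subset_ground rfl
      have haT : a ∉ T' ∪ P := fun h =>
        haM (M.subset_closure (T' ∪ P) hS'.fr.subset_ground h)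
      have hI : M.Indep (insert a (T' ∪ P)) :=
        (hS'.fr.notMem_closure_iff_of_notMem haT hag).1 haM
      have hbP : b ∉ P := fun h => (Set.disjoint_left.1 hS'.dj hbT) h
      have hun : (T' ∪ P) ∪ (insert a (T' \ {b}) ∪ P) ⊆ insert a (T' ∪ P) := by
        intro e he
        rcases he with he | he | he
        · exact Or.inr he
        · rcases he with he | he
          · exact Or.inl he
          · exact Or.inr (Or.inl he.1)
        · exact Or.inr (Or.inr he)
      have h3 : x ∈ M.closure ((T' ∪ P) ∩ (insert a (T' \ {b}) ∪ P)) := by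
        rw [(hI.subset hun).closure_inter_eq_inter_closure]
        exact ⟨hx', hx''⟩
      have h4 : (T' ∪ P) ∩ (insert a (T' \ {b}) ∪ P) ⊆ (T' ∪ P) \ {b} := by
        rintro e ⟨he1, he2⟩
        refine ⟨he1, ?_⟩
        rintro rfl
        rcases he2 with (he2 | he2) | he2
        · exact haT (he2 ▸ Or.inl hbT)
        · exact he2.2 rfl
        · exact hbP he2
      have h5 : x ∈ M.closure ((T' ∪ P) \ {b}) := M.closure_subset_closure h4 h3
      have hbF : b ∉ F := by
        intro hb
        have hun2 : F ∪ ((T' ∪ P) \ {b}) ⊆ T' ∪ P := union_subset ih sdiff_subset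
        have h6 : x ∈ M.closure (F ∩ ((T' ∪ P) \ {b})) := by
          rw [(hS'.fr.subset hun2).closure_inter_eq_inter_closure]
          exact ⟨hxF, h5⟩
        have h7 : F ⊆ F ∩ ((T' ∪ P) \ {b}) := Fc_sub (inter_subset_left.trans hFT) h6
        exact (h7 hb).2.2 rfl
      intro e he
      rcases ih he with h | h
      · refine Or.inl (Or.inr ⟨h, ?_⟩)
        rintro rfl
        exact hbF he
      · exact Or.inr h
  refine M.closure_subset_closure ?_ hxF
  intro e he
  by_cases heP : e ∈ P
  · exact Or.inr heP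
  · refine Or.inl fun T' hT' => ?_
    rcases key T' hT' he with h | h
    · exact h
    · exact absurd h heP

end Pool.Agent.RCM.H17
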